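import Pool.Agent.Lib.helper10.CisRed

namespace Pool.Agent.Results.MP_38a5c8_lc.CoNPHard

open Pool.Agent.Cx Pool.Agent.Cis

/-- `M` is the adjacency matrix of a graph in which every edge lies in a strong clique -/
def EdgeRec (M : List (List Bool)) : Prop := IsGraph M ∧ EdgeStrong (graphOf M)

theorem result : CoNPHard (Lang EdgeRec) :=
  (hard_between (Q := EdgeStrong) (fun _ _ h => h.edge) fun _ _ h => h.tri).coNPHard

end Pool.Agent.Results.MP_38a5c8_lc.CoNPHard
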